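import Pool.Agent.R72.Cyc.Main

set_option autoImplicit false

/-!
# Cycles avoiding one colour: the exact value of `f(t, ℓ)` for `t ≥ 3`

Outline.  Let `K_n` be coloured with `t ≥ 3` colours and let `H_i` be the graph of the edges not of colour `i`.
* If no `H_i` contains a cycle of length `ℓ ≥ 4`, then no `H_i` contains a longer cycle (`R72.Cyc.no_longer`).
* Replace each `H_i` by a maximal graph without cycles of length at least `ℓ`; nonadjacent vertices then have degree
  sum less than `n`.  The sets `W_i` of the vertices of degree less than `n / 2` are disjoint, their complements are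
  cliques, and Pósa's theorem shows that `W_i` sends at most `|W_i| (|W_i| - d)` edges to its complement, where
  `d = n - ℓ`.
* Every pair in `W_i × W_j` is an edge of `H_i` or of `H_j`; the resulting inequalities between the sizes `|W_i|`
  force `n` to be large.
* Nested colourings show that the bound is best possible.
-/

namespace Pool.Agent.Results.MP_df328f_co.ExactFormula

/-- The edge colouring `χ` of the complete graph on `Fin n` (a map from the unordered pairs to the `t` colours; the
values on the diagonal play no role for `ℓ ≥ 3`) has a cycle of length `ℓ` (vertices `v 0, v 1, ..., v (ℓ - 1)`,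
indexed by the integers modulo `ℓ`, distinct, with the edges `v i, v (i + 1)`) that misses the colour `a`, for some
colour `a`. -/
def HasCycleMissingColour {t n : ℕ} (χ : Sym2 (Fin n) → Fin t) (ℓ : ℕ) : Prop :=
  ∃ (v : ZMod ℓ → Fin n) (a : Fin t), Function.Injective v ∧ ∀ i, χ s(v i, v (i + 1)) ≠ a

/-- The closed formula for `f(t, ℓ)`, `t ≥ 3` and `ℓ ≥ 3` (integer division in the last line). -/
def cycleValue (t ℓ : ℕ) : ℕ :=
  if t = 3 ∧ ℓ = 3 then 5
  else if ℓ ≤ 3 * 2 ^ (t - 3) then ℓ
  else if ℓ ≤ 5 * 2 ^ (t - 2) - 2 then ℓ + 1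
  else if ℓ ≤ 5 * 2 ^ (t - 1) - 4 then ℓ + 2
  else ℓ + 1 + (ℓ - 2 ^ (t - 1) - 1) / (2 ^ t - 2)

open R72.Cyc in
theorem hasCyc_iff {t n ℓ : ℕ} (hℓ : 3 ≤ ℓ) (χ : Sym2 (Fin n) → Fin t) :
    HasCycleMissingColour χ ℓ ↔ ∃ a, HasCyc (Av (fun x y => χ s(x, y)) a) ℓ := by
  have : NeZero ℓ := ⟨by omega⟩
  have : Fact (1 < ℓ) := ⟨by omega⟩
  constructor
  · rintro ⟨v, a, hv, hcol⟩
    refine ⟨a, fun i => v (i : ℕ), hℓ, ?_, ?_, ?_⟩
    · intro i
      refine ⟨?_, ?_⟩
      · intro h
        have h1 := hv h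
        have h2 : ((1 : ℕ) : ZMod ℓ) = 0 := by
          have : (i : ZMod ℓ) + ((1 : ℕ) : ZMod ℓ) = (i : ZMod ℓ) + 0 := by
            rw [add_zero]; push_cast at h1 ⊢; exact h1.symm
          exact add_left_cancel this
        rw [ZMod.natCast_eq_zero_iff] at h2
        have := Nat.le_of_dvd (by norm_num) h2
        omega
      · have := hcol (i : ZMod ℓ)
        push_cast
        exact this
    · intro i
      simp
    · intro i j hij hj h
      have h1 := hv h
      rw [ZMod.natCast_eq_natCast_iff'] at h1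
      have : (j - i) % ℓ = 0 := Nat.sub_mod_eq_zero_of_mod_eq h1.symm
      have h2 : (j - i) % ℓ = j - i := Nat.mod_eq_of_lt (by omega)
      omega
  · rintro ⟨a, c, hc⟩
    refine ⟨fun x => c x.val, a, ?_, ?_⟩
    · intro x y hxy
      have hx := ZMod.val_lt x
      have hy := ZMod.val_lt y
      apply ZMod.val_injective ℓ
      by_contra hne
      rcases lt_or_gt_of_ne hne with h | h
      · exact hc.2.2.2 _ _ h (by omega) hxy
      · exact hc.2.2.2 _ _ h (by omega) hxy.symm
    · intro i
      have h1 : (i + 1).val = (i.val + 1) % ℓ := by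
        rw [ZMod.val_add, ZMod.val_one]
      have h2 : c (i + 1).val = c (i.val + 1) := by
        rw [h1, ← per_mod hc]
      show χ s(c i.val, c (i + 1).val) ≠ a
      rw [h2]
      exact (hc.2.1 i.val).2

open R72.Cyc in
theorem bad_iff {t n ℓ : ℕ} (hℓ : 3 ≤ ℓ) :
    Bad t ℓ n ↔ ¬ ∀ χ : Sym2 (Fin n) → Fin t, HasCycleMissingColour χ ℓ := by
  constructor
  · rintro ⟨χ, hχ, hno⟩ hall
    have h1 := (hasCyc_iff hℓ (Sym2.lift ⟨χ, hχ⟩)).1 (hall _)
    obtain ⟨a, ha⟩ := h1
    exact hno a ha
  · intro h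
    push Not at h
    obtain ⟨χ, hχ⟩ := h
    rw [hasCyc_iff hℓ] at hχ
    push Not at hχ
    exact ⟨fun x y => χ s(x, y), fun x y => congrArg χ Sym2.eq_swap, hχ⟩

/-- **The exact value.** For all `t ≥ 3` and `ℓ ≥ 3`, the least `n` such that every `t`-edge colouring of `K_n` has a
cycle of length `ℓ` missing at least one of the `t` colours is `cycleValue t ℓ`. -/
theorem result (t ℓ : ℕ) (ht : 3 ≤ t) (hℓ : 3 ≤ ℓ) :
    IsLeast {n : ℕ | ∀ χ : Sym2 (Fin n) → Fin t, HasCycleMissingColour χ ℓ} (cycleValue t ℓ) := by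
  obtain ⟨h1, h2⟩ := R72.Cyc.value t ℓ ht hℓ
  constructor
  · by_contra h
    exact h1 ((bad_iff hℓ).2 h)
  · intro n hn
    by_contra hlt
    push Not at hlt
    exact (bad_iff hℓ).1 (h2 n hlt) hn

end Pool.Agent.Results.MP_df328f_co.ExactFormula
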